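import Mathlib
import Pool.Agent.H97.Petal
import Pool.Agent.H97.Germ

open Complex Metric Set Filter Topology
open scoped ComplexConjugate

namespace Pool.Agent.Results.MP_543b58_an.Disc

/-- The compact disc `K = {(z ^ 2, f (conj z)) : |z| ≤ r}` in `ℂ × ℂ`. -/
def K (f : ℂ → ℂ) (r : ℝ) : Set (ℂ × ℂ) :=
  {p | ∃ z : ℂ, ‖z‖ ≤ r ∧ p = (z ^ 2, f (conj z))}

/-- conformal map of the unit disc onto the strip `0 < re < 1 / 2` -/
noncomputable def σ (ζ : ℂ) : ℂ := 1 / 4 + I / (2 * Real.pi) * log ((1 + ζ) / (1 - ζ))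

lemma σ_re (ζ : ℂ) : (σ ζ).re = 1 / 4 - arg ((1 + ζ) / (1 - ζ)) / (2 * Real.pi) := by
  have h : I / (2 * Real.pi) = ((1 / (2 * Real.pi) : ℝ) : ℂ) * I := by push_cast; ring
  have h4 : (1 / 4 : ℂ) = ((1 / 4 : ℝ) : ℂ) := by push_cast; ring
  rw [σ, h, h4, add_re, ofReal_re, mul_assoc, re_ofReal_mul, I_mul_re, log_im]
  ring

lemma σ_im (ζ : ℂ) : (σ ζ).im = Real.log ‖(1 + ζ) / (1 - ζ)‖ / (2 * Real.pi) := by
  have h : I / (2 * Real.pi) = ((1 / (2 * Real.pi) : ℝ) : ℂ) * I := by push_cast; ring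
  have h4 : (1 / 4 : ℂ) = ((1 / 4 : ℝ) : ℂ) := by push_cast; ring
  rw [σ, h, h4, add_im, ofReal_im, mul_assoc, im_ofReal_mul, I_mul_im, log_re]
  ring

lemma w_re (ζ : ℂ) : ((1 + ζ) / (1 - ζ)).re = (1 - ‖ζ‖ ^ 2) / normSq (1 - ζ) := by
  rw [div_re, ← add_div, Complex.sq_norm, normSq_apply ζ]
  congr 1
  simp only [add_re, one_re, sub_re, add_im, one_im, sub_im]
  ring

lemma w_re_nonneg {ζ : ℂ} (h : ‖ζ‖ ≤ 1) : 0 ≤ ((1 + ζ) / (1 - ζ)).re := by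
  rw [w_re]
  exact div_nonneg (by nlinarith [norm_nonneg ζ]) (normSq_nonneg _)

lemma w_ne {ζ : ℂ} (h1 : ζ ≠ 1) (h2 : ζ ≠ -1) : (1 + ζ) / (1 - ζ) ≠ 0 :=
  div_ne_zero (fun h => h2 (by linear_combination h)) (fun h => h1 (by linear_combination -h))

lemma w_slit {ζ : ℂ} (h : ‖ζ‖ ≤ 1) (h1 : ζ ≠ 1) (h2 : ζ ≠ -1) :
    (1 + ζ) / (1 - ζ) ∈ slitPlane := by
  rw [mem_slitPlane_iff]
  by_contra hc
  push Not at hc
  exact w_ne h1 h2 (Complex.ext (le_antisymm hc.1 (w_re_nonneg h)) hc.2)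

lemma σ_re_mem {ζ : ℂ} (h : ‖ζ‖ ≤ 1) : 0 ≤ (σ ζ).re ∧ (σ ζ).re ≤ 1 / 2 := by
  have h1 := abs_le.1 (abs_arg_le_pi_div_two_iff.2 (w_re_nonneg h))
  have hp := Real.pi_pos
  rw [σ_re]
  have h2 : arg ((1 + ζ) / (1 - ζ)) / (2 * Real.pi) ≤ 1 / 4 := by
    rw [div_le_iff₀ (by positivity)]; linarith
  have h3 : -(1 / 4) ≤ arg ((1 + ζ) / (1 - ζ)) / (2 * Real.pi) := by
    rw [le_div_iff₀ (by positivity)]; linarith
  constructor <;> linarith

lemma σ_diff {ζ : ℂ} (h : ‖ζ‖ ≤ 1) (h1 : ζ ≠ 1) (h2 : ζ ≠ -1) : DifferentiableAt ℂ σ ζ := by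
  have h3 : DifferentiableAt ℂ (fun ζ : ℂ => (1 + ζ) / (1 - ζ)) ζ :=
    (differentiableAt_id.const_add 1).div (differentiableAt_id.const_sub 1)
      (fun h => h1 (by linear_combination -h))
  exact ((h3.clog (w_slit h h1 h2)).const_mul _).const_add _

lemma σ_conj {ζ : ℂ} (h : ‖ζ‖ ≤ 1) (h1 : ζ ≠ 1) (h2 : ζ ≠ -1) :
    σ (conj ζ) - 1 / 2 = -conj (σ ζ) := by
  have h3 : (1 + conj ζ) / (1 - conj ζ) = conj ((1 + ζ) / (1 - ζ)) := by simp
  rw [σ, σ, h3, log_conj _ (slitPlane_arg_ne_pi (w_slit h h1 h2))]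
  simp only [map_add, map_mul, map_div₀, conj_I, conj_ofReal, map_one, map_ofNat]
  ring

lemma σ_sphere {ζ : ℂ} (h : ‖ζ‖ = 1) (h1 : ζ ≠ 1) (h2 : ζ ≠ -1) :
    (σ ζ).re = 0 ∨ (σ ζ).re = 1 / 2 := by
  have h3 : ((1 + ζ) / (1 - ζ)).re = 0 := by rw [w_re, h]; simp
  have hp := Real.pi_pos
  rcases lt_trichotomy ((1 + ζ) / (1 - ζ)).im 0 with h4 | h4 | h4
  · right
    rw [σ_re, arg_eq_neg_pi_div_two_iff.2 ⟨h3, h4⟩]
    field_simp; norm_num
  · exact absurd (Complex.ext h3 h4) (w_ne h1 h2)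
  · left
    rw [σ_re, arg_eq_pi_div_two_iff.2 ⟨h3, h4⟩]
    field_simp; norm_num

lemma σ_im_tendsto {p : ℂ} (hp : p = 1 ∨ p = -1) :
    Tendsto (fun ζ => |(σ ζ).im|) (𝓝[≠] p) atTop := by
  have hpi := Real.pi_pos
  have key : ∀ c : ℂ, Tendsto (fun ζ : ℂ => Real.log ‖ζ - c‖) (𝓝[≠] c) atBot := by
    intro c
    refine Real.tendsto_log_nhdsNE_zero.comp ?_
    refine tendsto_nhdsWithin_iff.2 ⟨?_, ?_⟩
    · have : Continuous fun ζ : ℂ => ‖ζ - c‖ := by fun_prop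
      simpa using (this.tendsto c).mono_left nhdsWithin_le_nhds
    · filter_upwards [self_mem_nhdsWithin] with ζ hζ
      simpa [sub_eq_zero] using hζ
  have key2 : ∀ c d : ℂ, d ≠ c →
      Tendsto (fun ζ : ℂ => Real.log ‖ζ - c‖) (𝓝[≠] d) (𝓝 (Real.log ‖d - c‖)) := by
    intro c d hcd
    have : ContinuousAt (fun ζ : ℂ => Real.log ‖ζ - c‖) d :=
      ContinuousAt.log (by fun_prop) (by simpa [sub_eq_zero] using hcd)
    exact this.tendsto.mono_left nhdsWithin_le_nhds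
  have form : ∀ ζ : ℂ, ζ ≠ 1 → ζ ≠ -1 →
      (σ ζ).im = (Real.log ‖ζ - -1‖ + -Real.log ‖ζ - 1‖) / (2 * Real.pi) := by
    intro ζ h1 h2
    rw [σ_im, norm_div, Real.log_div, norm_sub_rev 1 ζ, sub_neg_eq_add, add_comm 1 ζ]
    · ring
    · exact norm_ne_zero_iff.2 fun h => h2 (by linear_combination h)
    · exact norm_ne_zero_iff.2 fun h => h1 (by linear_combination -h)
  have hne : (1 : ℂ) ≠ -1 := by norm_num
  rcases hp with rfl | rfl
  · refine tendsto_abs_atTop_atTop.comp ?_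
    have h1 := ((key2 (-1) 1 hne).add_atTop
      (tendsto_neg_atBot_atTop.comp (key 1))).atTop_div_const (r := 2 * Real.pi) (by positivity)
    refine h1.congr' ?_
    filter_upwards [self_mem_nhdsWithin, nhdsWithin_le_nhds (isOpen_ne.mem_nhds hne)] with ζ e1 e2
    exact (form ζ e1 e2).symm
  · refine tendsto_abs_atBot_atTop.comp ?_
    have h1 := ((key (-1)).atBot_add (key2 1 (-1) hne.symm).neg).atBot_div_const
      (r := 2 * Real.pi) (by positivity)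
    refine h1.congr' ?_
    filter_upwards [self_mem_nhdsWithin, nhdsWithin_le_nhds (isOpen_ne.mem_nhds hne.symm)]
      with ζ e1 e2
    exact (form ζ e2 e1).symm

/-- a function that is holomorphic and antiholomorphic near a point has zero derivative -/
lemma deriv_zero {a b : ℂ → ℂ} {z : ℂ} (ha : DifferentiableAt ℂ a z)
    (hb : DifferentiableAt ℂ b (conj z)) (h : ∀ᶠ ζ in 𝓝 z, a ζ = b (conj ζ)) :
    deriv a z = 0 := by
  have line : ∀ (g : ℂ → ℂ) (p u : ℂ), DifferentiableAt ℂ g p →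
      HasDerivAt (fun t : ℝ => g (p + t * u)) (deriv g p * u) 0 := by
    intro g p u hg
    have h1 : HasDerivAt (fun s : ℂ => p + s * u) u ((0 : ℝ) : ℂ) :=
      (((hasDerivAt_id' _).mul_const u).const_add p).congr_deriv (one_mul u)
    have h2 : HasDerivAt g (deriv g p) (p + ((0 : ℝ) : ℂ) * u) := by
      simpa using hg.hasDerivAt
    exact (HasDerivAt.comp (h₂ := g) (h := fun s : ℂ => p + s * u) _ h2 h1).comp_ofReal
  have rel : ∀ u : ℂ, deriv a z * u = deriv b (conj z) * conj u := by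
    intro u
    refine (line a z u ha).unique ((line b (conj z) (conj u) hb).congr_of_eventuallyEq ?_)
    have hc : Continuous fun t : ℝ => z + t * u := by fun_prop
    have ht : Tendsto (fun t : ℝ => z + t * u) (𝓝 0) (𝓝 z) := by
      simpa using hc.tendsto 0
    filter_upwards [ht.eventually h] with t e
    simpa using e
  have h1 := rel 1
  have h2 := rel I
  rw [map_one, mul_one, mul_one] at h1
  rw [conj_I, ← h1] at h2
  have h3 : deriv a z * (2 * I) = 0 := by linear_combination h2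
  exact (mul_eq_zero.1 h3).resolve_right (mul_ne_zero two_ne_zero I_ne_zero)

theorem result (r : ℝ) (hr : 0 < r) (f : ℂ → ℂ) (hf : AnalyticOnNhd ℂ f (closedBall 0 r))
    (h0 : f 0 = 0) (h1 : deriv f 0 = 0) (h2 : iteratedDeriv 2 f 0 = 2)
    (hodd : ∃ n : ℕ, 1 ≤ n ∧ iteratedDeriv (2 * n + 1) f 0 ≠ 0) :
    ∃ φ : ℂ → ℂ × ℂ, ContinuousOn φ (closedBall 0 1) ∧ DifferentiableOn ℂ φ (ball 0 1) ∧
      MapsTo φ (sphere 0 1) (K f r) ∧ ¬ MapsTo φ (closedBall 0 1) (K f r) := by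
  classical
  obtain ⟨n, -, hn⟩ := hodd
  have hf0 : AnalyticAt ℂ f 0 := hf 0 (mem_closedBall_self hr.le)
  obtain ⟨k, a, hk, ha, ha0, hev⟩ := Pool.Agent.H97.Germ.exists_germ hf0 h0 h1 h2 hn
  obtain ⟨ε, hε, hall⟩ := Metric.eventually_nhds_iff_ball.1 (hev.and (ball_mem_nhds (0 : ℂ) hr))
  obtain ⟨ψ, hψ1, hψ2, hψ3⟩ := Pool.Agent.H97.Petal.exists_strip hk ha ha0 hε
  have hψr : ∀ h : ℂ, |h.re| ≤ 2 → ‖ψ h‖ ≤ r := fun h hh =>
    (mem_ball_zero_iff.1 (hall _ (mem_ball_zero_iff.2 (hψ1 h hh).2.2)).2).le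
  have hfd : ∀ x : ℂ, ‖x‖ ≤ r → DifferentiableAt ℂ f x := fun x hx =>
    (hf x (mem_closedBall_zero_iff.2 hx)).differentiableAt
  have re1 : ∀ ζ : ℂ, ‖ζ‖ ≤ 1 → |(σ ζ).re| ≤ 2 := fun ζ h => by
    have := σ_re_mem h
    rw [abs_le]; constructor <;> linarith
  have re2 : ∀ ζ : ℂ, ‖ζ‖ ≤ 1 → |(σ ζ - 1 / 2).re| ≤ 1 := fun ζ h => by
    have := σ_re_mem h
    have h4 : (1 / 2 : ℂ).re = 1 / 2 := by norm_num
    rw [sub_re, h4, abs_le]; constructor <;> linarith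
  set ψ₁ : ℂ → ℂ := fun ζ => ψ (σ ζ) with hψ₁
  set ψ₂ : ℂ → ℂ := fun ζ => ψ (σ ζ - 1 / 2) with hψ₂
  have d1 : ∀ ζ : ℂ, ‖ζ‖ ≤ 1 → ζ ≠ 1 → ζ ≠ -1 → DifferentiableAt ℂ ψ₁ ζ := fun ζ h e1 e2 =>
    (hψ1 _ (re1 ζ h)).1.comp ζ (σ_diff h e1 e2)
  have d2 : ∀ ζ : ℂ, ‖ζ‖ ≤ 1 → ζ ≠ 1 → ζ ≠ -1 → DifferentiableAt ℂ ψ₂ ζ := fun ζ h e1 e2 =>
    (hψ1 _ ((re2 ζ h).trans one_le_two)).1.comp ζ ((σ_diff h e1 e2).sub_const _)
  have cne : ∀ ζ : ℂ, ζ ≠ 1 → ζ ≠ -1 → conj ζ ≠ 1 ∧ conj ζ ≠ -1 := fun ζ e1 e2 =>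
    ⟨fun h => e1 (by simpa using congrArg conj h), fun h => e2 (by simpa using congrArg conj h)⟩
  set Φ : ℂ → ℂ × ℂ := fun ζ => ((conj (ψ₂ (conj ζ))) ^ 2, f (ψ₁ ζ)) with hΦ
  have dΦ : ∀ ζ : ℂ, ‖ζ‖ ≤ 1 → ζ ≠ 1 → ζ ≠ -1 → DifferentiableAt ℂ Φ ζ := by
    intro ζ h e1 e2
    have h3 : DifferentiableAt ℂ (conj ∘ ψ₂ ∘ conj) ζ :=
      differentiableAt_conj_conj_iff.2
        (d2 _ (by rwa [norm_conj]) (cne ζ e1 e2).1 (cne ζ e1 e2).2)
    exact (h3.pow 2).prodMk ((hfd _ (hψr _ (re1 ζ h))).comp ζ (d1 ζ h e1 e2))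
  set φ : ℂ → ℂ × ℂ := fun ζ => if ζ = 1 ∨ ζ = -1 then 0 else Φ ζ with hφ
  have φeq : ∀ ζ : ℂ, ζ ≠ 1 → ζ ≠ -1 → φ ζ = Φ ζ := fun ζ e1 e2 => by simp [hφ, e1, e2]
  have dφ : ∀ ζ : ℂ, ‖ζ‖ ≤ 1 → ζ ≠ 1 → ζ ≠ -1 → DifferentiableAt ℂ φ ζ := by
    intro ζ h e1 e2
    refine (dΦ ζ h e1 e2).congr_of_eventuallyEq ?_
    filter_upwards [isOpen_ne.mem_nhds e1, isOpen_ne.mem_nhds e2] with x x1 x2
    exact φeq x x1 x2
  have inball : ∀ ζ ∈ ball (0 : ℂ) 1, ‖ζ‖ ≤ 1 ∧ ζ ≠ 1 ∧ ζ ≠ -1 := by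
    intro ζ h
    have h3 := mem_ball_zero_iff.1 h
    refine ⟨h3.le, ?_, ?_⟩ <;> rintro rfl <;> simp at h3
  have lim : ∀ (l : Filter ℂ) (s : ℂ → ℂ), (∀ᶠ ζ in l, |(s ζ).re| ≤ 2) →
      Tendsto (fun ζ => |(s ζ).im|) l atTop → Tendsto (fun ζ => ψ (s ζ)) l (𝓝 0) := by
    intro l s e1 e2
    rw [Metric.tendsto_nhds]
    intro η hη
    obtain ⟨S, hS⟩ := hψ2 η hη
    filter_upwards [e1, e2.eventually (eventually_ge_atTop S)] with ζ x1 x2
    rw [dist_zero_right]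
    exact hS _ x1 (x2.trans (abs_im_le_norm _))
  have cφ : ContinuousOn φ (closedBall 0 1) := by
    intro p hp
    by_cases hp1 : p = 1 ∨ p = -1
    · rw [← continuousWithinAt_sdiff_self, ContinuousWithinAt]
      have hφp : φ p = 0 := by simp only [hφ, if_pos hp1]
      rw [hφp]
      set l := 𝓝[closedBall (0 : ℂ) 1 \ {p}] p with hl
      have hle : l ≤ 𝓝[≠] p := nhdsWithin_mono _ fun x hx => hx.2
      have ev1 : ∀ᶠ ζ in l, ‖ζ‖ ≤ 1 := by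
        filter_upwards [self_mem_nhdsWithin] with ζ hζ
        exact mem_closedBall_zero_iff.1 hζ.1
      have ev2 : ∀ᶠ ζ in l, ζ ≠ 1 ∧ ζ ≠ -1 := by
        have hne : (1 : ℂ) ≠ -1 := by norm_num
        rcases hp1 with rfl | rfl
        · filter_upwards [self_mem_nhdsWithin, nhdsWithin_le_nhds (isOpen_ne.mem_nhds hne)]
            with ζ x1 x2
          exact ⟨x1.2, x2⟩
        · filter_upwards [self_mem_nhdsWithin, nhdsWithin_le_nhds (isOpen_ne.mem_nhds hne.symm)]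
            with ζ x1 x2
          exact ⟨x2, x1.2⟩
      have t0 := (σ_im_tendsto hp1).mono_left hle
      have t1 : Tendsto ψ₁ l (𝓝 0) := lim l σ (ev1.mono re1) t0
      have t2 : Tendsto (fun ζ => ψ₂ (conj ζ)) l (𝓝 0) := by
        refine lim l (fun ζ => σ (conj ζ) - 1 / 2) (ev1.mono fun ζ h =>
          (re2 _ (by rwa [norm_conj])).trans one_le_two) (t0.congr' ?_)
        filter_upwards [ev1, ev2] with ζ x1 x2
        rw [σ_conj x1 x2.1 x2.2]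
        simp
      have t3 : Tendsto (fun ζ => (conj (ψ₂ (conj ζ))) ^ 2) l (𝓝 0) := by
        simpa using ((continuous_conj.tendsto 0).comp t2).pow 2
      have t4 : Tendsto (fun ζ => f (ψ₁ ζ)) l (𝓝 0) := by
        have := hf0.continuousAt.tendsto.comp t1
        rw [h0] at this
        exact this
      refine (t3.prodMk_nhds t4).congr' ?_
      filter_upwards [ev2] with ζ x2
      exact (φeq ζ x2.1 x2.2).symm
    · push Not at hp1
      exact (dφ p (mem_closedBall_zero_iff.1 hp) hp1.1 hp1.2).continuousAt.continuousWithinAt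
  refine ⟨φ, cφ, fun ζ h => ?_, fun ζ h => ?_, fun hmap => ?_⟩
  · obtain ⟨x1, x2, x3⟩ := inball ζ h
    exact (dφ ζ x1 x2 x3).differentiableWithinAt
  · by_cases hp1 : ζ = 1 ∨ ζ = -1
    · refine ⟨0, by simpa using hr.le, ?_⟩
      simp only [hφ, if_pos hp1]
      simp [h0, Prod.ext_iff]
    push Not at hp1
    have hn1 : ‖ζ‖ = 1 := mem_sphere_zero_iff_norm.1 h
    rw [φeq ζ hp1.1 hp1.2]
    have e0 := σ_conj hn1.le hp1.1 hp1.2
    rcases σ_sphere hn1 hp1.1 hp1.2 with e | e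
    · have e1 : σ (conj ζ) - 1 / 2 = σ ζ := by
        rw [e0]; apply Complex.ext <;> simp [e]
      refine ⟨conj (ψ (σ ζ)), by rw [norm_conj]; exact hψr _ (re1 ζ hn1.le), ?_⟩
      simp only [hΦ, hψ₁, hψ₂, e1, conj_conj]
    · have e1 : σ (conj ζ) - 1 / 2 = σ ζ - 1 := by
        rw [e0]; apply Complex.ext
        · simp only [neg_re, conj_re, sub_re, one_re, e]; norm_num
        · simp
      have e2 : |(σ ζ - 1).re| ≤ 1 := by
        rw [sub_re, one_re, e, abs_le]; constructor <;> norm_num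
      have e3 := hψ3 _ e2
      rw [sub_add_cancel] at e3
      have e4 := (hall _ (mem_ball_zero_iff.2 (hψ1 _ (e2.trans one_le_two)).2.2)).1.1
      refine ⟨-conj (ψ (σ ζ - 1)), by
        rw [norm_neg, norm_conj]; exact hψr _ (e2.trans one_le_two), ?_⟩
      simp only [hΦ, hψ₁, hψ₂, e1, map_neg, conj_conj]
      rw [e3, e4, neg_sq]
  · set A : ℂ → ℂ := fun ζ => f (ψ₁ ζ) with hA
    have dA : ∀ ζ ∈ ball (0 : ℂ) 1, DifferentiableAt ℂ A ζ := fun ζ h => by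
      obtain ⟨x1, x2, x3⟩ := inball ζ h
      exact (hfd _ (hψr _ (re1 ζ x1))).comp ζ (d1 ζ x1 x2 x3)
    have cball : ∀ ζ ∈ ball (0 : ℂ) 1, conj ζ ∈ ball (0 : ℂ) 1 := fun ζ h => by
      rw [mem_ball_zero_iff] at h ⊢; rwa [norm_conj]
    have dB : ∀ ζ ∈ ball (0 : ℂ) 1, DifferentiableAt ℂ (fun ζ => f (ψ₂ ζ)) ζ ∧
        DifferentiableAt ℂ (fun ζ => f (-ψ₂ ζ)) ζ := fun ζ h => by
      obtain ⟨x1, x2, x3⟩ := inball ζ h
      have x4 := hψr _ ((re2 ζ x1).trans one_le_two)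
      exact ⟨(hfd _ x4).comp ζ (d2 ζ x1 x2 x3),
        (hfd (-ψ₂ ζ) (by rwa [norm_neg])).comp ζ (d2 ζ x1 x2 x3).neg⟩
    have alt : ∀ ζ ∈ ball (0 : ℂ) 1, A ζ = f (ψ₂ (conj ζ)) ∨ A ζ = f (-ψ₂ (conj ζ)) := by
      intro ζ h
      obtain ⟨x1, x2, x3⟩ := inball ζ h
      obtain ⟨z, -, hz⟩ := hmap (ball_subset_closedBall h)
      rw [φeq ζ x2 x3] at hz
      simp only [hΦ, Prod.mk.injEq] at hz
      rcases sq_eq_sq_iff_eq_or_eq_neg.1 hz.1 with e | e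
      · left
        rw [hA]; simp only [hz.2, ← e, conj_conj]
      · right
        have : ψ₂ (conj ζ) = -conj z := by simpa using congrArg conj e
        rw [hA]; simp only [hz.2, this, neg_neg]
    have loc : ∃ z ∈ ball (0 : ℂ) 1, ∀ᶠ ζ in 𝓝 z, deriv A ζ = 0 := by
      by_cases hc : ∀ ζ ∈ ball (0 : ℂ) 1, A ζ = f (ψ₂ (conj ζ))
      · refine ⟨0, mem_ball_self one_pos, ?_⟩
        filter_upwards [ball_mem_nhds (0 : ℂ) one_pos] with ζ h
        refine deriv_zero (b := fun ζ => f (ψ₂ ζ)) (dA ζ h) (dB _ (cball ζ h)).1 ?_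
        filter_upwards [isOpen_ball.mem_nhds h] with x hx
        exact hc x hx
      · push Not at hc
        obtain ⟨z, hz, hne⟩ := hc
        have c1 : ContinuousAt (fun ζ => A ζ - f (ψ₂ (conj ζ))) z :=
          (dA z hz).continuousAt.sub
            ((dB _ (cball z hz)).1.continuousAt.comp continuous_conj.continuousAt)
        have c2 : ∀ᶠ ζ in 𝓝 z, ζ ∈ ball (0 : ℂ) 1 ∧ A ζ = f (-ψ₂ (conj ζ)) := by
          filter_upwards [c1.eventually_ne (sub_ne_zero.2 hne), isOpen_ball.mem_nhds hz]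
            with ζ x1 x2
          exact ⟨x2, (alt ζ x2).resolve_left (sub_ne_zero.1 x1)⟩
        refine ⟨z, hz, ?_⟩
        filter_upwards [c2.eventually_nhds] with ζ h
        have hζ := h.self_of_nhds.1
        exact deriv_zero (b := fun ζ => f (-ψ₂ ζ)) (dA ζ hζ) (dB _ (cball ζ hζ)).2
          (h.mono fun x hx => hx.2)
    obtain ⟨z, hz, hloc⟩ := loc
    have dAon : DifferentiableOn ℂ A (ball 0 1) := fun ζ h => (dA ζ h).differentiableWithinAt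
    have hder : EqOn (deriv A) 0 (ball 0 1) :=
      (dAon.analyticOnNhd isOpen_ball).deriv.eqOn_zero_of_preconnected_of_eventuallyEq_zero
        (convex_ball _ _).isPreconnected hz hloc
    have hconst : EqOn (fun ζ => (φ ζ).2) (fun _ => A 0) (ball 0 1) := by
      intro ζ h
      obtain ⟨x1, x2, x3⟩ := inball ζ h
      have := isOpen_ball.is_const_of_deriv_eq_zero (convex_ball _ _).isPreconnected dAon hder h
        (mem_ball_self one_pos)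
      simp only [φeq ζ x2 x3]
      exact this
    have hcl : EqOn (fun ζ => (φ ζ).2) (fun _ => A 0) (closedBall 0 1) :=
      hconst.of_subset_closure cφ.snd continuousOn_const ball_subset_closedBall
        (by rw [closure_ball _ one_ne_zero])
    have e1 := hcl (x := 1) (by simp)
    have e2 : φ 1 = 0 := by simp [hφ]
    simp only [e2, Prod.snd_zero] at e1
    have x0 := hψ1 _ (re1 0 (by simp))
    exact (hall _ (mem_ball_zero_iff.2 x0.2.2)).1.2 x0.2.1 e1.symm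

end Pool.Agent.Results.MP_543b58_an.Disc
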